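import Mathlib
import Pool.Agent.Run7.h457.Defs
import Pool.Agent.Run7.h457.DefsGroup
import Pool.Agent.Run7.h457.GroupFinal

open MvPolynomial Run7.h457

/-- Let `X` be a smooth irreducible closed subvariety of complex projective 4-space (of any
dimension, in particular a smooth surface) which is not contained in a hyperplane, with generic
point `x = (x₀ : … : x₄)`, where `K = ℂ(x₀,…,x₄)` is the fraction field of the homogeneous
coordinate ring `ℂ[X₀,…,X₄]/I`, `I = {f | f(x) = 0}`. Suppose infinitely many projective
transformations of projective 4-space map `X` onto itself (they are given by matrices `g 0`, `g 1`,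
…, no two of them proportional). Then `q(X) = h⁰(X, Ω¹_X) = 0`. -/
theorem Pool.Agent.Results.MP_b8c302_ag.InfiniteAut.result
    {K : Type} [Field K] [Algebra ℂ K] (x : Fin 5 → K) (hX : IsSmoothNondegenerate x)
    (g : ℕ → Matrix (Fin 5) (Fin 5) ℂ) (hg : ∀ n, IsProjAut x (g n))
    (hne : ∀ m n, m ≠ n → ∀ t : ℂ, g m ≠ t • g n) :
    IrregularityZero x :=
  irregularityZero_of_infinite x hX g hg hne
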